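import Pool.Agent.Helper37.Arb.Goals

/-!
Project ARB, packet ARB-ALL: the two assembly inductions.
-/

namespace Pool.Agent.Helper46.Arb

open Pool.Agent.Helper37.Arb Polynomial

/-- response statement for both kinds of tangles -/
def PR : ∀ s : Bool, Tangle s → Prop
  | true, T => ∃ j, Resp2 T.diag j T.data.l T.data.r T.data.f
  | false, P => ∃ j, Resp1 P.diag j P.data.l P.data.f

/-- log-concavity statement for both kinds of tangles -/
def PG : ∀ s : Bool, Tangle s → Prop
  | true, T => T.Small → ∃ k, Good2 T.data.N k (seq T.data.L) (seq T.data.b)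
  | false, P => P.Small → ∃ k k', Good1 P.data.N k k' (seq P.data.L) (seq P.data.b)

theorem vals_of (h : GoalData2) (T : Tangle true) : Vals T.data.l T.data.r T.data.f := by
  intro x hx
  obtain ⟨h1, h2⟩ := h T
  obtain ⟨a, b, c, -⟩ := h2 x hx
  refine ⟨a, b, c, ?_⟩
  have h3 := congrArg (aeval x) h1
  simpa [Data.l, Data.r, Data.f] using h3

theorem respAll : GoalRespAll := by
  intro hI hD2 hD1 hc hM hS hB hO hsum hT hF
  obtain ⟨m1, m2, m3, m4, m5⟩ := hM
  have key : ∀ (s : Bool) (t : Tangle s), PR s t := by
    intro s t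
    induction t with
    | cross =>
      refine ⟨0, ?_⟩
      have e1 : Tangle.cross.data.l = fun _ => 1 := by
        funext x; simp [Data.l, Tangle.data]
      have e2 : Tangle.cross.data.r = fun x => x := by
        funext x; simp [Data.r, Tangle.data]
      have e3 : Tangle.cross.data.f = fun _ => 1 := by
        funext x; simp [Data.f, Tangle.data]
      rw [e1, e2, e3]
      exact hc
    | stack S T ihS ihT =>
      obtain ⟨j₁, h1⟩ := ihS
      obtain ⟨j₂, h2⟩ := ihT
      refine ⟨j₁ + j₂, ?_⟩
      have h := hS m1 m5 S T j₁ j₂ _ _ _ _ _ _ (vals_of hD2 S) (vals_of hD2 T) h1 h2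
      have e1 : (Tangle.stack S T).data.l = fun x => S.data.l x * T.data.l x := by
        funext x; simp [Data.l, Tangle.data]
      have e2 : (Tangle.stack S T).data.r = fun x => S.data.r x * T.data.r x := by
        funext x; simp [Data.r, Tangle.data]
      have e3 : (Tangle.stack S T).data.f =
          fun x => S.data.r x * T.data.f x + S.data.f x * T.data.l x := by
        funext x; simp [Data.f, Data.r, Data.l, Tangle.data]
      rw [e1, e2, e3]
      exact h
    | beside P T ihP ihT =>
      obtain ⟨j₁, h1⟩ := ihP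
      obtain ⟨j₂, h2⟩ := ihT
      refine ⟨j₁ + j₂ + 1, ?_⟩
      have h := hB m2 m5 P T j₁ j₂ _ _ _ _ _
        (fun x hx => ⟨(hD1 P x hx).1, (hD1 P x hx).2.1⟩) (vals_of hD2 T) h1 h2
      have e1 : (Tangle.beside P T).data.l =
          fun x => P.data.f x * T.data.l x + P.data.l x * T.data.f x := by
        funext x; simp [Data.l, Data.f, Tangle.data]
      have e2 : (Tangle.beside P T).data.r =
          fun x => P.data.f x * T.data.r x + P.data.l x * T.data.f x := by
        funext x; simp [Data.r, Data.l, Data.f, Tangle.data]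
      have e3 : (Tangle.beside P T).data.f = fun x => P.data.f x * T.data.f x := by
        funext x; simp [Data.f, Tangle.data]
      rw [e1, e2, e3]
      exact h
    | flip T ihT =>
      obtain ⟨j, h1⟩ := ihT
      obtain ⟨k, hk⟩ := hI T
      have h2 := (hD2 T).2
      have h := hF T j T.data.N _ _ _ k hk (vals_of hD2 T)
        (fun x hx => ⟨(h2 x hx).2.2.2.1, (h2 x hx).2.2.2.2.1, (h2 x hx).2.2.2.2.2⟩) h1
      exact h
    | opposite S T ihS ihT =>
      obtain ⟨j₁, h1⟩ := ihS
      obtain ⟨j₂, h2⟩ := ihT
      refine ⟨j₁ + j₂, ?_⟩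
      have h := hO m3 m5 S T j₁ j₂ _ _ _ _ _ _ (vals_of hD2 S) (vals_of hD2 T) h1 h2
      have e1 : (Tangle.opposite S T).data.l =
          fun x => S.data.r x * T.data.f x + S.data.f x * T.data.l x := by
        funext x; simp [Data.l, Data.r, Data.f, Tangle.data]
      have e3 : (Tangle.opposite S T).data.f = fun x => S.data.f x * T.data.f x := by
        funext x; simp [Data.f, Tangle.data]
      rw [e1, e3]
      exact h
    | sum P Q ihP ihQ =>
      obtain ⟨j₁, h1⟩ := ihP
      obtain ⟨j₂, h2⟩ := ihQ
      refine ⟨j₁ + j₂ + 1, ?_⟩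
      have h := hsum m4 m5 P Q j₁ j₂ _ _ _ _
        (fun x hx => ⟨(hD1 P x hx).1, (hD1 P x hx).2.1⟩)
        (fun x hx => ⟨(hD1 Q x hx).1, (hD1 Q x hx).2.1⟩) h1 h2
      have e1 : (Tangle.sum P Q).data.l =
          fun x => P.data.l x * Q.data.f x + P.data.f x * Q.data.l x := by
        funext x; simp [Data.l, Data.f, Tangle.data]
      have e3 : (Tangle.sum P Q).data.f = fun x => P.data.f x * Q.data.f x := by
        funext x; simp [Data.f, Tangle.data]
      rw [e1, e3]
      exact h
    | turn P ihP =>
      obtain ⟨j, h1⟩ := ihP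
      obtain ⟨j', h⟩ := hT P j P.data.N _ _
        (fun x hx => ⟨(hD1 P x hx).1, (hD1 P x hx).2.1⟩)
        (fun x hx => ⟨(hD1 P x hx).2.2.1, (hD1 P x hx).2.2.2⟩) h1
      refine ⟨j', ?_⟩
      have e1 : (Tangle.turn P).data.l = fun x => x * P.data.f x := by
        funext x; simp [Data.l, Data.f, Tangle.data]
      have e3 : (Tangle.turn P).data.f = P.data.l := by
        funext x; simp [Data.f, Data.l, Tangle.data]
      rw [e1, e3]
      exact h
  exact ⟨fun T => key true T, fun P => key false P⟩

theorem goodAll : GoalGoodAll := by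
  intro hM hD2 hP hc ht hs hb hst
  obtain ⟨hfin, hmul, hadd, hX, h1⟩ := hM
  obtain ⟨hP2, hP1⟩ := hP ⟨hfin, hmul, hadd, hX, h1⟩ hD2
  have e1 : seq (1 : ℤ[X]) = fun s => if s = 0 then 1 else 0 := funext h1
  have key : ∀ (s : Bool) (t : Tangle s), PG s t := by
    intro s t
    induction t with
    | cross =>
      intro _
      refine ⟨0, ?_⟩
      have h : Good2 1 0 (fun s => if s = 0 then 1 else 0) (fun s => if s = 0 then 1 else 0) := hc
      simpa only [Tangle.data, e1] using h
    | stack S T ihS ihT =>
      rintro ⟨sS, sT⟩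
      obtain ⟨k₁, g1⟩ := ihS sS
      obtain ⟨k₂, g2⟩ := ihT sT
      refine ⟨k₁ + k₂, ?_⟩
      have h := hst _ _ _ _ _ _ _ _ g1 g2
      have eR : (fun s => seq S.data.L (S.data.N - s)) = seq S.data.R :=
        funext fun s => ((hP2 S).1 s).symm
      rw [eR] at h
      simpa only [Tangle.data, hadd, hmul] using h
    | beside P T ihP ihT =>
      rintro ⟨sP, sT⟩
      obtain ⟨k₁, k₁', g1⟩ := ihP sP
      obtain ⟨k₂, g2⟩ := ihT sT
      refine ⟨k₁ + k₂, ?_⟩
      have h := hb _ _ _ _ _ _ _ _ _ g1 g2
      simpa only [Tangle.data, hadd, hmul] using h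
    | flip T ihT =>
      intro sT
      exact ihT sT
    | opposite S T ihS ihT =>
      rintro ⟨sS, sT, hor⟩
      obtain ⟨k₁, g1⟩ := ihS sS
      obtain ⟨k₂, g2⟩ := ihT sT
      rcases hor with rfl | rfl
      · refine ⟨k₂, k₂, ?_⟩
        have h := g2.half
        have eN : (Tangle.opposite .cross T).data.N = T.data.N := by
          simp [Tangle.data]
        have eb : (Tangle.opposite .cross T).data.b = T.data.b := by
          simp [Tangle.data]
        have eL : (Tangle.opposite .cross T).data.L = X * T.data.b + T.data.L := by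
          simp [Tangle.data]
        rw [eN, eb, eL]
        have e2 : seq (X * T.data.b + T.data.L) =
            fun s => seq T.data.b s + seq T.data.L (T.data.N - s) := by
          funext s
          rw [hadd, Pi.add_apply, hX]
          have := g2.rel s
          linarith
        rw [e2]
        exact h
      · refine ⟨k₁, k₁, ?_⟩
        have h := g1.half
        have eN : (Tangle.opposite S .cross).data.N = S.data.N := by
          simp [Tangle.data]
        have eb : (Tangle.opposite S .cross).data.b = S.data.b := by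
          simp [Tangle.data]
        have eL : (Tangle.opposite S .cross).data.L = S.data.R + S.data.b := by
          simp [Tangle.data]
        rw [eN, eb, eL]
        have e2 : seq (S.data.R + S.data.b) =
            fun s => seq S.data.b s + seq S.data.L (S.data.N - s) := by
          funext s
          rw [hadd, Pi.add_apply, (hP2 S).1 s, add_comm]
        rw [e2]
        exact h
    | sum P Q ihP ihQ =>
      rintro ⟨sP, sQ⟩
      obtain ⟨k₁, k₁', g1⟩ := ihP sP
      obtain ⟨k₂, k₂', g2⟩ := ihQ sQ
      obtain ⟨k', h⟩ := hs _ _ _ _ _ _ _ _ _ _ g1 g2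
      refine ⟨k₁ + k₂, k', ?_⟩
      simpa only [Tangle.data, hadd, hmul] using h
    | turn P ihP =>
      intro sP
      obtain ⟨k, k', g⟩ := ihP sP
      refine ⟨k', k + 1, ?_⟩
      have h := ht _ _ _ _ _ g
      have e2 : seq (X * P.data.b) = fun s => seq P.data.b (s - 1) := funext (hX P.data.b)
      simpa only [Tangle.data, e2] using h
  exact ⟨fun T => key true T, fun P => key false P⟩

end Pool.Agent.Helper46.Arb
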